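import Pool.Agent.H82.EUC.Stmts3

set_option autoImplicit false

namespace Pool.EUC

theorem bag_thm (h : OPP_S) : BAG_S := by
  intro A V G dM dW hM hW F hF
  have hex : ∀ v : V, ∃ m, F.o m ≠ F.a v m := by
    intro v
    by_contra hcon
    push Not at hcon
    exact hF.oane v (Equiv.ext hcon)
  choose mb hmb using hex
  refine ⟨mb, fun u v huv => ?_⟩
  have hne : u ≠ v := huv.ne
  have h1 : dM (mb v) (F.o (mb v)) < dM (mb v) (F.a v (mb v)) := by
    refine lt_of_le_of_ne (h A dM dW hM hW _ _ hF.so (hF.sa v) (hF.oa v) (mb v)) ?_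
    intro he
    exact hmb v (hM (mb v) he)
  have h2 := (hF.m1 u v hne).2 (mb v)
  have h3 : dM (mb v) (F.o (mb v)) = dM (mb v) (F.a u (mb v)) := by
    rcases min_choice (dM (mb v) (F.a u (mb v))) (dM (mb v) (F.a v (mb v))) with h4 | h4
    · rw [h2, h4]
    · rw [h4] at h2
      exact absurd h2 h1.ne
  refine ⟨(hM (mb v) h3).symm, ?_⟩
  have h5 := h A dM dW hM hW _ _ (hF.sa v) (hF.sd v u hne.symm) (hF.ad v u hne.symm) (mb v)
  have h6 := h A dM dW hM hW _ _ (hF.sd v u hne.symm) (hF.sb v u huv.symm)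
    (hF.db v u huv.symm) (mb v)
  rw [hF.bsymm u v]
  exact lt_of_lt_of_le h1 (h5.trans h6)

end Pool.EUC
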