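import Pool.Agent.H82.EUC.Stmts4

set_option autoImplicit false

namespace Pool.EUC

theorem pcv_thm (hCON : CON_S) (hPSH : PSH_S) : PCV_S := by
  intro A _ P _ dM dW hM hW g hg x y hxy
  have hlt : x < y := hxy.lt
  -- the lower set `U`
  let U : LowerSet P := ⟨{z | z < y ∧ z ≠ x}, by
    intro z z' hz' hz
    refine ⟨lt_of_le_of_lt hz' hz.1, ?_⟩
    rintro rfl
    exact hxy.2 (lt_of_le_of_ne hz' (Ne.symm hz.2)) hz.1⟩
  have hU : ∀ z, z ∈ U ↔ z < y ∧ z ≠ x := fun z => Iff.rfl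
  have h1 : U ⊓ LowerSet.Iic x = LowerSet.Iio x := by
    ext z
    simp only [LowerSet.coe_inf, LowerSet.coe_Iic, LowerSet.coe_Iio, Set.mem_inter_iff,
      SetLike.mem_coe, hU, Set.mem_Iic, Set.mem_Iio]
    constructor
    · rintro ⟨⟨-, h⟩, h'⟩
      exact lt_of_le_of_ne h' h
    · intro h
      exact ⟨⟨h.trans hlt, h.ne⟩, h.le⟩
  have h2 : U ⊔ LowerSet.Iic x = LowerSet.Iio y := by
    ext z
    simp only [LowerSet.coe_sup, LowerSet.coe_Iic, LowerSet.coe_Iio, Set.mem_union,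
      SetLike.mem_coe, hU, Set.mem_Iic, Set.mem_Iio]
    constructor
    · rintro (⟨h, -⟩ | h)
      · exact h
      · exact lt_of_le_of_lt h hlt
    · intro h
      by_cases hz : z = x
      · exact Or.inr hz.le
      · exact Or.inl ⟨h, hz⟩
  obtain ⟨a1, a2, a3, a4⟩ := hPSH A P dM dW hM hW g hg x U h1
  rw [h2] at a1 a2 a3 a4
  have hUy : U ≤ LowerSet.Iic y := by
    intro z hz
    exact (show z ≤ y from ((hU z).1 hz).1.le)
  -- what is strictly between
  have hbt : ∀ ν, Stb dM dW ν → WLe dW (g U) ν → WLe dW ν (g (LowerSet.Iic y)) → ν ≠ g U →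
      ν ≠ g (LowerSet.Iic y) → ν = g (LowerSet.Iio y) := by
    intro ν hν h3 h4 h5 h6
    obtain ⟨T, hT1, hT2, rfl⟩ := hg.cvx U (LowerSet.Iic y) ν hν h3 h4
    congr 1
    have hy : y ∉ T := by
      intro hy
      apply h6
      congr 1
      refine le_antisymm hT2 ?_
      intro z hz
      exact T.lower (show z ≤ y from hz) hy
    have hTy : ∀ z ∈ T, z < y := by
      intro z hz
      refine lt_of_le_of_ne (show z ≤ y from hT2 hz) ?_
      rintro rfl
      exact hy hz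
    have hx : x ∈ T := by
      by_contra hx
      apply h5
      congr 1
      refine le_antisymm ?_ hT1
      intro z hz
      refine (hU z).2 ⟨hTy z hz, ?_⟩
      rintro rfl
      exact hx hz
    refine le_antisymm ?_ ?_
    · intro z hz
      exact (show z < y from hTy z hz)
    · intro z hz
      have hz' : z < y := hz
      by_cases hzx : z = x
      · rw [hzx]
        exact hx
      · exact hT1 ((hU z).2 ⟨hz', hzx⟩)
  have hcon := hCON A dM dW hM hW (g U) (g (LowerSet.Iic y)) (hg.stb _) (hg.stb _)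
    (hg.mono _ _ hUy) (fun ν ν' e1 e2 e3 e4 e5 e6 e7 e8 e9 e10 => by
      rw [hbt ν e1 e3 e4 e7 e8, hbt ν' e2 e5 e6 e9 e10])
  by_cases hboth : ∃ m, Mo g x m ∧ Mo g y m
  · exact Or.inl hboth
  refine Or.inr ?_
  have hno : ∀ m, Mo g x m → ¬ Mo g y m := fun m e1 e2 => hboth ⟨m, e1, e2⟩
  -- moved men
  have hex : ∀ z : P, ∃ m, Mo g z m := by
    intro z
    by_contra hcon'
    have hcon'' : ∀ m, g (LowerSet.Iio z) m = g (LowerSet.Iic z) m := by
      intro m
      by_contra hm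
      exact hcon' ⟨m, hm⟩
    have h3 : LowerSet.Iio z = LowerSet.Iic z := hg.inj (Equiv.ext hcon'')
    have h4 : z ∈ LowerSet.Iio z := by
      rw [h3]
      exact (le_refl z : z ≤ z)
    exact lt_irrefl z (show z < z from h4)
  obtain ⟨m0, hm0⟩ := hex x
  obtain ⟨m0', hm0'⟩ := hex y
  have hnx : ∀ m, Mo g y m → ¬ Mo g x m := fun m e1 e2 => hno m e2 e1
  have hmv : ∀ m, Mo g x m → g (LowerSet.Iic y) m = g (LowerSet.Iic x) m := by
    intro m hm
    have h3 : g (LowerSet.Iio y) m = g (LowerSet.Iic y) m := by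
      by_contra h4
      exact hno m hm h4
    rw [← h3]
    exact (a1 m hm).2
  have e1 : g U m0 ≠ g (LowerSet.Iic y) m0 := by
    rw [hmv m0 hm0, (a1 m0 hm0).1]
    exact hm0
  have e2 : g U m0' ≠ g (LowerSet.Iic y) m0' := by
    rw [a2 m0' (hnx m0' hm0')]
    exact hm0'
  have hpath := hcon m0 m0' e1 e2
  have hstep : ∃ m1 m2, RR dM dW (g U) (g (LowerSet.Iic y)) m1 m2 ∧ Mo g x m1 ∧
      ¬ Mo g x m2 := by
    by_contra hcon'
    have hpres : ∀ a, Relation.ReflTransGen (RR dM dW (g U) (g (LowerSet.Iic y))) m0 a →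
        Mo g x a := by
      intro a ha
      induction ha with
      | refl => exact hm0
      | tail _ hbc ih =>
        by_contra hc
        exact hcon' ⟨_, _, hbc, ih, hc⟩
    exact hnx m0' hm0' (hpres m0' hpath)
  obtain ⟨m1, m2, ⟨w, hw1, hw2⟩, hm1, hm2⟩ := hstep
  obtain ⟨-, hs, hd1, hd2⟩ := hw1
  obtain ⟨hs1, -, hd3, hd4⟩ := hw2
  have hm2y : Mo g y m2 := by
    rw [a2 m2 hm2] at hs1
    exact hs1
  by_cases hwx : Wo g x w
  · refine Or.inr ⟨m2, w, hm2y, hwx, hd3, ?_⟩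
    rw [← (a3 w hwx).1]
    exact hd4
  · have h3 := a4 w hwx
    refine Or.inl ⟨m1, w, hm1, ?_, ?_, ?_⟩
    · rw [h3] at hs
      exact hs
    · rw [← hmv m1 hm1]
      exact hd1
    · rw [← h3]
      exact hd2

end Pool.EUC
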