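import Pool.Agent.H82.EUC.Stmts5

set_option autoImplicit false

namespace Pool.EUC

/-- the coordinate of rank `n` -/
def rnk_p (n : ℕ) : ℤ := 100 * 4 ^ (n + 1)

theorem rnk_p_ge (n : ℕ) : 400 ≤ rnk_p n := by
  unfold rnk_p
  have h : (1 : ℤ) ≤ 4 ^ n := one_le_pow₀ (by norm_num)
  rw [pow_succ]
  linarith

theorem rnk_p_lt {m n : ℕ} (h : m < n) : 4 * rnk_p m ≤ rnk_p n := by
  unfold rnk_p
  have h1 : (4 : ℤ) ^ (m + 1 + 1) ≤ 4 ^ (n + 1) := pow_le_pow_right₀ (by norm_num) (by omega)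
  rw [pow_succ] at h1
  linarith

theorem rnk_p_lt_iff {m n : ℕ} : rnk_p m < rnk_p n ↔ m < n := by
  constructor
  · intro h
    by_contra hc
    rcases Nat.lt_or_ge n m with h1 | h1
    · have h2 := rnk_p_lt h1
      have h3 := rnk_p_ge n
      omega
    · have : m = n := by omega
      subst this
      exact lt_irrefl _ h
  · intro h
    have h2 := rnk_p_lt h
    have h3 := rnk_p_ge m
    omega

theorem rnk_p_le_iff {m n : ℕ} : rnk_p m ≤ rnk_p n ↔ m ≤ n := by
  rw [← not_lt, ← not_lt, rnk_p_lt_iff]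

theorem rnk_p_bd {m n : ℕ} (h : m < n) : rnk_p m ≤ 100 * 4 ^ n := by
  unfold rnk_p
  have h1 : (4 : ℤ) ^ (m + 1) ≤ 4 ^ n := pow_le_pow_right₀ (by norm_num) (by omega)
  linarith

/-- ranks in one direction -/
theorem rnk_dir (h0 : RK0_S) (P Q : Type) [Finite P] [Finite Q] (u : P → ℝ) (a b : Q → ℝ)
    (hab : ∀ q, a q ≤ b q) : ∃ (gu : P → ℕ) (ga gb : Q → ℕ),
    (∀ p p', p ≠ p' → gu p ≠ gu p') ∧ (∀ q q', q ≠ q' → gb q ≠ gb q') ∧
    (∀ q, ga q < gb q) ∧ (∀ p q, ga q ≠ gu p ∧ gb q ≠ gu p) ∧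
    (∀ p q, ga q < gu p ↔ a q ≤ u p) ∧ (∀ p q, gu p < gb q ↔ u p ≤ b q) ∧
    (∀ p, gu p < Nat.card P + 2 * Nat.card Q) ∧ (∀ q, gb q < Nat.card P + 2 * Nat.card Q) := by
  obtain ⟨iP, hiP⟩ := exists_injective_nat P
  obtain ⟨iQ, hiQ⟩ := exists_injective_nat Q
  let f : P ⊕ (Q ⊕ Q) → ℝ ×ₗ (ℕ ×ₗ ℕ) := fun k => match k with
    | Sum.inl p => toLex (u p, toLex (1, iP p))
    | Sum.inr (Sum.inl q) => toLex (a q, toLex (0, iQ q))
    | Sum.inr (Sum.inr q) => toLex (b q, toLex (2, iQ q))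
  have hf : Function.Injective f := by
    rintro (p | q | q) (p' | q' | q') h
    · have := congrArg (fun z => (ofLex (ofLex z).2).2) h
      exact congrArg Sum.inl (hiP this)
    · exact absurd (congrArg (fun z => (ofLex (ofLex z).2).1) h) (by simp [f])
    · exact absurd (congrArg (fun z => (ofLex (ofLex z).2).1) h) (by simp [f])
    · exact absurd (congrArg (fun z => (ofLex (ofLex z).2).1) h) (by simp [f])
    · have := congrArg (fun z => (ofLex (ofLex z).2).2) h
      exact congrArg (fun t => Sum.inr (Sum.inl t)) (hiQ this)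
    · exact absurd (congrArg (fun z => (ofLex (ofLex z).2).1) h) (by simp [f])
    · exact absurd (congrArg (fun z => (ofLex (ofLex z).2).1) h) (by simp [f])
    · exact absurd (congrArg (fun z => (ofLex (ofLex z).2).1) h) (by simp [f])
    · have := congrArg (fun z => (ofLex (ofLex z).2).2) h
      exact congrArg (fun t => Sum.inr (Sum.inr t)) (hiQ this)
  obtain ⟨g, hg, hgb⟩ := h0 (P ⊕ (Q ⊕ Q)) (ℝ ×ₗ (ℕ ×ₗ ℕ)) f hf
  have hginj : ∀ k k', k ≠ k' → g k ≠ g k' := by
    intro k k' hk he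
    rcases lt_trichotomy (f k) (f k') with h | h | h
    · have := (hg k k').1 h
      omega
    · exact hk (hf h)
    · have := (hg k' k).1 h
      omega
  have hcard : Nat.card (P ⊕ (Q ⊕ Q)) = Nat.card P + 2 * Nat.card Q := by
    rw [Nat.card_sum, Nat.card_sum]
    ring
  refine ⟨fun p => g (Sum.inl p), fun q => g (Sum.inr (Sum.inl q)),
    fun q => g (Sum.inr (Sum.inr q)), ?_, ?_, ?_, ?_, ?_, ?_, ?_, ?_⟩
  · intro p p' h
    exact hginj _ _ (fun he => h (Sum.inl.inj he))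
  · intro q q' h
    exact hginj _ _ (fun he => h (Sum.inr.inj (Sum.inr.inj he)))
  · intro q
    refine (hg _ _).1 ?_
    show toLex (a q, toLex (0, iQ q)) < toLex (b q, toLex (2, iQ q))
    rw [Prod.Lex.toLex_lt_toLex]
    rcases lt_or_eq_of_le (hab q) with h | h
    · exact Or.inl h
    · refine Or.inr ⟨h, ?_⟩
      show toLex (0, iQ q) < toLex (2, iQ q)
      rw [Prod.Lex.toLex_lt_toLex]
      exact Or.inl (by norm_num)
  · intro p q
    exact ⟨hginj _ _ (by simp), hginj _ _ (by simp)⟩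
  · intro p q
    rw [← hg]
    show toLex (a q, toLex (0, iQ q)) < toLex (u p, toLex (1, iP p)) ↔ _
    rw [Prod.Lex.toLex_lt_toLex]
    constructor
    · rintro (h | ⟨h, -⟩)
      · exact le_of_lt h
      · exact le_of_eq h
    · intro h
      rcases lt_or_eq_of_le h with h | h
      · exact Or.inl h
      · refine Or.inr ⟨h, ?_⟩
        show toLex (0, iQ q) < toLex (1, iP p)
        rw [Prod.Lex.toLex_lt_toLex]
        exact Or.inl (by norm_num)
  · intro p q
    rw [← hg]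
    show toLex (u p, toLex (1, iP p)) < toLex (b q, toLex (2, iQ q)) ↔ _
    rw [Prod.Lex.toLex_lt_toLex]
    constructor
    · rintro (h | ⟨h, -⟩)
      · exact le_of_lt h
      · exact le_of_eq h
    · intro h
      rcases lt_or_eq_of_le h with h | h
      · exact Or.inl h
      · refine Or.inr ⟨h, ?_⟩
        show toLex (1, iP p) < toLex (2, iQ q)
        rw [Prod.Lex.toLex_lt_toLex]
        exact Or.inl (by norm_num)
  · intro p
    rw [← hcard]
    exact hgb _
  · intro q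
    rw [← hcard]
    exact hgb _

theorem rnk_thm (h0 : RK0_S) : RNK_S := by
  intro V E _ _ x lo hi y l r hlo hlr
  obtain ⟨gx, gl, gr, x1, x2, x3, x4, x5, x6, x7, x8⟩ := rnk_dir h0 V E x l r hlr
  obtain ⟨gy, go, gh, y1, y2, y3, y4, y5, y6, y7, y8⟩ := rnk_dir h0 E V y lo hi hlo
  refine ⟨⟨fun v => rnk_p (gx v), fun v => rnk_p (go v), fun v => rnk_p (gh v),
    fun e => rnk_p (gy e), fun e => rnk_p (gl e), fun e => rnk_p (gr e)⟩, ?_, ?_, ?_, ?_⟩
  · have sep : ∀ m n : ℕ, rnk_p m < rnk_p n → rnk_p m + 100 ≤ rnk_p n ∧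
        2 * rnk_p m ≤ rnk_p n := by
      intro m n h
      have h1 := rnk_p_lt (rnk_p_lt_iff.1 h)
      have h2 := rnk_p_ge m
      constructor <;> omega
    have dis : ∀ m n : ℕ, m ≠ n → rnk_p m < rnk_p n ∨ rnk_p n < rnk_p m := by
      intro m n h
      rcases Nat.lt_or_gt_of_ne h with h | h
      · exact Or.inl (rnk_p_lt_iff.2 h)
      · exact Or.inr (rnk_p_lt_iff.2 h)
    refine ⟨fun v => rnk_p_ge _, fun v => rnk_p_ge _, fun v => rnk_p_le_iff.2 (y3 v).le,
      fun e => rnk_p_ge _, fun e => rnk_p_ge _, fun e => rnk_p_le_iff.2 (x3 e).le, ?_, ?_, ?_, ?_,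
      fun v e h => (sep _ _ h).1, fun v e h => (sep _ _ h).2, fun v e h => (sep _ _ h).1,
      fun v e h => (sep _ _ h).2⟩
    · intro v w h
      rcases dis _ _ (x1 v w h) with h | h
      · exact Or.inl (sep _ _ h).1
      · exact Or.inr (sep _ _ h).1
    · intro v w h
      rcases dis _ _ (y1 v w h) with h | h
      · exact Or.inl (sep _ _ h).1
      · exact Or.inr (sep _ _ h).1
    · intro v w h
      rcases dis _ _ (y2 v w h) with h | h
      · exact Or.inl (sep _ _ h).2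
      · exact Or.inr (sep _ _ h).2
    · intro v w h
      rcases dis _ _ (x2 v w h) with h | h
      · exact Or.inl (sep _ _ h).2
      · exact Or.inr (sep _ _ h).2
  · intro v e
    have ne : ∀ m n : ℕ, m ≠ n → (rnk_p m ≤ rnk_p n ↔ m < n) := by
      intro m n h
      rw [rnk_p_le_iff]
      omega
    show rnk_p (gl e) ≤ rnk_p (gx v) ∧ rnk_p (gx v) ≤ rnk_p (gr e) ∧
      rnk_p (go v) ≤ rnk_p (gy e) ∧ rnk_p (gy e) ≤ rnk_p (gh v) ↔ _
    rw [ne _ _ (x4 v e).1, ne _ _ (Ne.symm (x4 v e).2), ne _ _ (y4 e v).1,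
      ne _ _ (Ne.symm (y4 e v).2), x5, x6, y5, y6]
  · intro v
    constructor
    · exact rnk_p_bd (lt_of_lt_of_le (x7 v) (by omega))
    · exact rnk_p_bd (lt_of_lt_of_le (y8 v) (by omega))
  · intro e
    constructor
    · exact rnk_p_bd (lt_of_lt_of_le (y7 e) (by omega))
    · exact rnk_p_bd (lt_of_lt_of_le (x8 e) (by omega))

end Pool.EUC
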